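import Mathlib

/-! `SL₂` of the ring of power series over a finite field of characteristic two. -/

set_option autoImplicit false
set_option linter.unusedSectionVars false

open scoped PowerSeries.WithPiTopology MatrixGroups
open Matrix

namespace Pool.Agent.Q90.SLR

universe u

section top

variable (F : Type u) [Field F] [Finite F] [TopologicalSpace F] [DiscreteTopology F]

instance compactPS : CompactSpace (PowerSeries F) :=
  inferInstanceAs (CompactSpace ((Unit →₀ ℕ) → F))

instance tdPS : TotallyDisconnectedSpace (PowerSeries F) :=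
  inferInstanceAs (TotallyDisconnectedSpace ((Unit →₀ ℕ) → F))

instance compactSL : CompactSpace SL(2, PowerSeries F) := by
  have : CompactSpace (Matrix (Fin 2) (Fin 2) (PowerSeries F)) :=
    inferInstanceAs (CompactSpace (Fin 2 → Fin 2 → PowerSeries F))
  exact (Matrix.SpecialLinearGroup.isClosedEmbedding_val
    (n := Fin 2) (R := PowerSeries F)).compactSpace

instance t2SL : T2Space SL(2, PowerSeries F) := by
  have : T2Space (Matrix (Fin 2) (Fin 2) (PowerSeries F)) :=
    inferInstanceAs (T2Space (Fin 2 → Fin 2 → PowerSeries F))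
  exact (Matrix.SpecialLinearGroup.isClosedEmbedding_val
    (n := Fin 2) (R := PowerSeries F)).isEmbedding.t2Space

theorem td_of_embedding {X Y : Type*} [TopologicalSpace X] [TopologicalSpace Y]
    [TotallyDisconnectedSpace Y] (f : X → Y) (hf : Continuous f) (hi : Function.Injective f) :
    TotallyDisconnectedSpace X := by
  constructor
  intro s _ hs x hx y hy
  apply hi
  exact (hs.image f hf.continuousOn).subsingleton (Set.mem_image_of_mem f hx)
    (Set.mem_image_of_mem f hy)

instance tdSL : TotallyDisconnectedSpace SL(2, PowerSeries F) := by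
  have : TotallyDisconnectedSpace (Matrix (Fin 2) (Fin 2) (PowerSeries F)) :=
    inferInstanceAs (TotallyDisconnectedSpace (Fin 2 → Fin 2 → PowerSeries F))
  exact td_of_embedding (fun g : SL(2, PowerSeries F) => (g : Matrix (Fin 2) (Fin 2) (PowerSeries F)))
    (Matrix.SpecialLinearGroup.isClosedEmbedding_val
      (n := Fin 2) (R := PowerSeries F)).continuous Subtype.val_injective

/-- Reduction modulo `t`. -/
noncomputable def red : SL(2, PowerSeries F) →* SL(2, F) :=
  Matrix.SpecialLinearGroup.map (PowerSeries.constantCoeff (R := F))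

omit [Finite F] in
theorem continuous_red : Continuous (red F) :=
  (PowerSeries.WithPiTopology.continuous_constantCoeff F).specialLinearGroup_map

omit [Finite F] in
theorem isOpen_ker_red : IsOpen ((red F).ker : Set SL(2, PowerSeries F)) := by
  have h : ((red F).ker : Set SL(2, PowerSeries F)) = red F ⁻¹' {1} := by
    ext x; simp [MonoidHom.mem_ker]
  rw [h]
  exact (isOpen_discrete ({1} : Set SL(2, F))).preimage (continuous_red F)

end top

section alg

variable {R : Type u} [CommRing R] [IsDomain R] [CharP R 2]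

theorem ext_entries {x y : SL(2, R)} (h0 : x 0 0 = y 0 0) (h1 : x 0 1 = y 0 1)
    (h2 : x 1 0 = y 1 0) (h3 : x 1 1 = y 1 1) : x = y := by
  apply Matrix.SpecialLinearGroup.ext
  intro i j
  fin_cases i <;> fin_cases j
  · exact h0
  · exact h1
  · exact h2
  · exact h3

theorem mul00 (x y : SL(2, R)) : (x * y) 0 0 = x 0 0 * y 0 0 + x 0 1 * y 1 0 := by
  simp [Matrix.SpecialLinearGroup.coe_mul, Matrix.mul_apply, Fin.sum_univ_two]
theorem mul01 (x y : SL(2, R)) : (x * y) 0 1 = x 0 0 * y 0 1 + x 0 1 * y 1 1 := by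
  simp [Matrix.SpecialLinearGroup.coe_mul, Matrix.mul_apply, Fin.sum_univ_two]
theorem mul10 (x y : SL(2, R)) : (x * y) 1 0 = x 1 0 * y 0 0 + x 1 1 * y 1 0 := by
  simp [Matrix.SpecialLinearGroup.coe_mul, Matrix.mul_apply, Fin.sum_univ_two]
theorem mul11 (x y : SL(2, R)) : (x * y) 1 1 = x 1 0 * y 0 1 + x 1 1 * y 1 1 := by
  simp [Matrix.SpecialLinearGroup.coe_mul, Matrix.mul_apply, Fin.sum_univ_two]

theorem det_eq (x : SL(2, R)) : x 0 0 * x 1 1 - x 0 1 * x 1 0 = 1 := by
  have := x.det_coe
  rwa [Matrix.det_fin_two] at this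

theorem two_eq_zero' : (2 : R) = 0 := CharTwo.two_eq_zero

/-- In characteristic two a scalar matrix of determinant one is trivial. -/
theorem eq_one_of_scalar (x : SL(2, R)) (h01 : x 0 1 = 0) (h10 : x 1 0 = 0)
    (h : x 0 0 = x 1 1) : x = 1 := by
  have hd := det_eq x
  rw [h01, h10, ← h] at hd
  have h2 : (2 : R) = 0 := two_eq_zero'
  have h3 : (x 0 0 - 1) * (x 0 0 - 1) = 0 := by linear_combination hd - (x 0 0 - 1) * h2
  have h4 : x 0 0 = 1 := sub_eq_zero.1 (mul_self_eq_zero.1 h3)
  apply ext_entries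
  · simpa using h4
  · simpa using h01
  · simpa using h10
  · rw [← h]; simpa using h4

theorem commute_iff (x y : SL(2, R)) : x * y = y * x ↔
    x 0 1 * y 1 0 = y 0 1 * x 1 0 ∧ (x 0 0 - x 1 1) * y 0 1 = (y 0 0 - y 1 1) * x 0 1 ∧
    (x 0 0 - x 1 1) * y 1 0 = (y 0 0 - y 1 1) * x 1 0 := by
  constructor
  · intro h
    have h0 := congrArg (fun z : SL(2, R) => z 0 0) h
    have h1 := congrArg (fun z : SL(2, R) => z 0 1) h
    have h2 := congrArg (fun z : SL(2, R) => z 1 0) h
    simp only [mul00, mul01, mul10] at h0 h1 h2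
    refine ⟨by linear_combination h0, by linear_combination h1, by linear_combination -h2⟩
  · rintro ⟨h0, h1, h2⟩
    apply ext_entries
    · simp only [mul00]; linear_combination h0
    · simp only [mul01]; linear_combination h1
    · simp only [mul10]; linear_combination -h2
    · simp only [mul11]; linear_combination -h0

/-- Commutation is transitive on nontrivial elements of `SL₂(R)`, `R` a domain of
characteristic two. -/
theorem comm_trans (x a b : SL(2, R)) (hx : x ≠ 1) (ha : x * a = a * x) (hb : x * b = b * x) :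
    a * b = b * a := by
  rw [commute_iff] at ha hb ⊢
  obtain ⟨a0, a1, a2⟩ := ha
  obtain ⟨b0, b1, b2⟩ := hb
  by_cases h01 : x 0 1 = 0
  · by_cases h10 : x 1 0 = 0
    · have h : x 0 0 - x 1 1 ≠ 0 := by
        intro h
        exact hx (eq_one_of_scalar x h01 h10 (sub_eq_zero.1 h))
      have hh := mul_ne_zero h h
      refine ⟨?_, ?_, ?_⟩ <;> apply mul_left_cancel₀ hh
      · linear_combination (x 0 0 - x 1 1) * b 1 0 * a1 - (x 0 0 - x 1 1) * a 1 0 * b1 +
          (a 0 0 - a 1 1) * x 0 1 * b2 - (b 0 0 - b 1 1) * x 0 1 * a2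
      · linear_combination (x 0 0 - x 1 1) * (a 0 0 - a 1 1) * b1 -
          (x 0 0 - x 1 1) * (b 0 0 - b 1 1) * a1
      · linear_combination (x 0 0 - x 1 1) * (a 0 0 - a 1 1) * b2 -
          (x 0 0 - x 1 1) * (b 0 0 - b 1 1) * a2
    · have hh := mul_ne_zero h10 h10
      refine ⟨?_, ?_, ?_⟩ <;> apply mul_left_cancel₀ hh
      · linear_combination x 1 0 * a 1 0 * b0 - x 1 0 * b 1 0 * a0
      · linear_combination (-(x 1 0) * b 0 1) * a2 + x 1 0 * a 0 1 * b2 +
          (x 0 0 - x 1 1) * b 1 0 * a0 - (x 0 0 - x 1 1) * a 1 0 * b0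
      · linear_combination x 1 0 * a 1 0 * b2 - x 1 0 * b 1 0 * a2
  · have hh := mul_ne_zero h01 h01
    refine ⟨?_, ?_, ?_⟩ <;> apply mul_left_cancel₀ hh
    · linear_combination x 0 1 * a 0 1 * b0 - x 0 1 * b 0 1 * a0
    · linear_combination x 0 1 * a 0 1 * b1 - x 0 1 * b 0 1 * a1
    · linear_combination x 0 1 * a 1 0 * b1 - x 0 1 * b 1 0 * a1 +
        (x 0 0 - x 1 1) * a 0 1 * b0 - (x 0 0 - x 1 1) * b 0 1 * a0

end alg

end Pool.Agent.Q90.SLR
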