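import Pool.Agent.Q90.SLR

/-! `SL₂(F)` is not solvable for a field with an element `a ≠ 0`, `a² ≠ 1`. -/

set_option autoImplicit false
set_option linter.unusedSectionVars false

open scoped MatrixGroups commutatorElement
open Matrix

namespace Pool.Agent.Q90.SLR

universe u

variable {F : Type u} [Field F]

/-- upper unitriangular -/
def U (b : F) : SL(2, F) := ⟨!![1, b; 0, 1], by simp⟩
/-- lower unitriangular -/
def L (b : F) : SL(2, F) := ⟨!![1, 0; b, 1], by simp⟩
/-- diagonal -/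
def D (a : F) (ha : a ≠ 0) : SL(2, F) := ⟨!![a, 0; 0, a⁻¹], by simp [ha]⟩

theorem D_eq (a : F) (ha : a ≠ 0) :
    D a ha = U a * L (-a⁻¹) * U a * (U (-1) * L 1 * U (-1)) := by
  apply Subtype.ext
  simp only [D, U, L, Matrix.SpecialLinearGroup.coe_mul]
  ext i j
  fin_cases i <;> fin_cases j <;> simp [Matrix.mul_apply, Fin.sum_univ_two, ha]

theorem commDU (a : F) (ha : a ≠ 0) (b : F) : ⁅D a ha, U b⁆ = U ((a ^ 2 - 1) * b) := by
  rw [commutatorElement_def, mul_inv_eq_iff_eq_mul, mul_inv_eq_iff_eq_mul]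
  apply Subtype.ext
  simp only [D, U, Matrix.SpecialLinearGroup.coe_mul]
  ext i j
  fin_cases i <;> fin_cases j <;> simp [Matrix.mul_apply, Fin.sum_univ_two] <;> field_simp <;> ring

theorem commDL (a : F) (ha : a ≠ 0) (b : F) :
    ⁅D a⁻¹ (inv_ne_zero ha), L b⁆ = L ((a ^ 2 - 1) * b) := by
  rw [commutatorElement_def, mul_inv_eq_iff_eq_mul, mul_inv_eq_iff_eq_mul]
  apply Subtype.ext
  simp only [D, L, Matrix.SpecialLinearGroup.coe_mul]
  ext i j
  fin_cases i <;> fin_cases j <;> simp [Matrix.mul_apply, Fin.sum_univ_two] <;> field_simp <;> ring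

theorem mem_derived (a : F) (ha : a ≠ 0) (ha2 : a ^ 2 ≠ 1) (k : ℕ) :
    ∀ b : F, U b ∈ derivedSeries SL(2, F) k ∧ L b ∈ derivedSeries SL(2, F) k := by
  induction k with
  | zero => intro b; simp
  | succ k ih =>
    have hD : ∀ c (hc : c ≠ 0), D c hc ∈ derivedSeries SL(2, F) k := by
      intro c hc
      rw [D_eq]
      exact mul_mem (mul_mem (mul_mem (ih _).1 (ih _).2) (ih _).1)
        (mul_mem (mul_mem (ih _).1 (ih _).2) (ih _).1)
    have h1 : a ^ 2 - 1 ≠ 0 := sub_ne_zero.2 ha2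
    intro b
    rw [derivedSeries_succ]
    constructor
    · have : U b = ⁅D a ha, U ((a ^ 2 - 1)⁻¹ * b)⁆ := by
        rw [commDU, mul_inv_cancel_left₀ h1]
      rw [this]
      exact Subgroup.commutator_mem_commutator (hD _ _) (ih _).1
    · have : L b = ⁅D a⁻¹ (inv_ne_zero ha), L ((a ^ 2 - 1)⁻¹ * b)⁆ := by
        rw [commDL a ha, mul_inv_cancel_left₀ h1]
      rw [this]
      exact Subgroup.commutator_mem_commutator (hD _ (inv_ne_zero ha)) (ih _).2

theorem not_solvable (a : F) (ha : a ≠ 0) (ha2 : a ^ 2 ≠ 1) : ¬ Group.IsSolvable SL(2, F) := by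
  intro h
  obtain ⟨n, hn⟩ := h.solvable
  have h1 := (mem_derived a ha ha2 n 1).1
  rw [hn, Subgroup.mem_bot] at h1
  have h2 := congrArg (fun z : SL(2, F) => z 0 1) h1
  simp [U] at h2

end Pool.Agent.Q90.SLR
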