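import Mathlib

/-! van Dantzig's theorem -/

set_option autoImplicit false

open scoped Pointwise Topology

namespace Pool.Agent.Q90

universe u

/-- van Dantzig: a totally disconnected locally compact Hausdorff group has arbitrarily small
compact open subgroups. -/
theorem exists_compact_open_subgroup {G : Type u} [Group G] [TopologicalSpace G]
    [IsTopologicalGroup G] [LocallyCompactSpace G] [TotallyDisconnectedSpace G] [T2Space G]
    (U : Set G) (hU : U ∈ 𝓝 (1 : G)) :
    ∃ H : Subgroup G, IsOpen (H : Set G) ∧ IsCompact (H : Set G) ∧ (H : Set G) ⊆ U := by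
  obtain ⟨C, hC, hCU, hCc⟩ := local_compact_nhds hU
  obtain ⟨V, hVsub, hVo, hV1⟩ := mem_nhds_iff.1 hC
  obtain ⟨W, hW, h1W, hWV⟩ := (loc_compact_Haus_tot_disc_of_zero_dim (H := G)).exists_subset_of_mem_open
    hV1 hVo
  have hWc : IsCompact W := hCc.of_isClosed_subset hW.1 (hWV.trans hVsub)
  obtain ⟨T, hT, hWT⟩ := compact_open_separated_mul_right hWc hW.2 subset_rfl
  let H : Subgroup G :=
    { carrier := {g | W * {g} = W}
      mul_mem' := by
        intro a b ha hb
        simp only [Set.mem_ofPred_eq] at ha hb ⊢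
        rw [← Set.singleton_mul_singleton, ← mul_assoc, ha, hb]
      one_mem' := by simp
      inv_mem' := by
        intro a ha
        simp only [Set.mem_ofPred_eq] at ha ⊢
        conv_lhs => rw [← ha]
        rw [mul_assoc, Set.singleton_mul_singleton, mul_inv_cancel, Set.singleton_one, mul_one] }
  have hsub : (H : Set G) ⊆ W := by
    intro g hg
    have hg' : W * {g} = W := hg
    rw [← hg']
    exact ⟨1, h1W, g, rfl, one_mul g⟩
  have hopen : IsOpen (H : Set G) := by
    apply H.isOpen_of_mem_nhds (g := 1)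
    have hT' : T ∩ T⁻¹ ∈ 𝓝 (1 : G) := Filter.inter_mem hT (inv_mem_nhds_one G hT)
    filter_upwards [hT'] with g hg
    change W * {g} = W
    apply Set.Subset.antisymm
    · exact (Set.mul_subset_mul_left (Set.singleton_subset_iff.2 hg.1)).trans hWT
    · have h2 : W * {g⁻¹} ⊆ W :=
        (Set.mul_subset_mul_left (Set.singleton_subset_iff.2 (Set.mem_inv.1 hg.2))).trans hWT
      have h3 : (W * {g⁻¹}) * {g} ⊆ W * {g} := Set.mul_subset_mul_right h2
      rwa [mul_assoc, Set.singleton_mul_singleton, inv_mul_cancel, Set.singleton_one, mul_one] at h3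
  refine ⟨H, hopen, ?_, ?_⟩
  · exact hWc.of_isClosed_subset (H.isClosed_of_isOpen hopen) hsub
  · exact hsub.trans ((hWV.trans hVsub).trans hCU)

end Pool.Agent.Q90
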